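import Pool.Agent.H37.UMD.Stmts

set_option autoImplicit false

open MeasureTheory ProbabilityTheory

namespace Pool.UMD

lemma NLP_nm_sq (x : ℝ × ℝ) : (nm x) ^ 2 = x.1 ^ 2 + x.2 ^ 2 := by
  unfold nm
  exact Real.sq_sqrt (by positivity)

lemma NLP_nm_nonneg (x : ℝ × ℝ) : 0 ≤ nm x := Real.sqrt_nonneg _

lemma NLP_nm_mono (x y : ℝ × ℝ) (h1 : x.1 ^ 2 ≤ y.1 ^ 2) (h2 : x.2 ^ 2 ≤ y.2 ^ 2) :
    nm x ≤ nm y := by
  unfold nm
  exact Real.sqrt_le_sqrt (by linarith)

lemma NLP_nm_smul (c : ℝ) (hc : 0 ≤ c) (x : ℝ × ℝ) : nm (c * x.1, c * x.2) = c * nm x := by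
  unfold nm
  have : (c * x.1) ^ 2 + (c * x.2) ^ 2 = c ^ 2 * (x.1 ^ 2 + x.2 ^ 2) := by ring
  simp only [this]
  rw [Real.sqrt_mul (by positivity), Real.sqrt_sq hc]

lemma NLP_nm_add (x y : ℝ × ℝ) : nm (x.1 + y.1, x.2 + y.2) ≤ nm x + nm y := by
  have h1 := NLP_nm_nonneg x
  have h2 := NLP_nm_nonneg y
  have h3 := NLP_nm_sq x
  have h4 := NLP_nm_sq y
  have h5 : x.1 * y.1 + x.2 * y.2 ≤ nm x * nm y := by
    apply le_of_abs_le
    apply abs_le_of_sq_le_sq _ (by positivity)
    rw [mul_pow, h3, h4]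
    nlinarith [sq_nonneg (x.1 * y.2 - x.2 * y.1)]
  have h6 : (nm (x.1 + y.1, x.2 + y.2)) ^ 2 ≤ (nm x + nm y) ^ 2 := by
    rw [NLP_nm_sq]
    simp only
    nlinarith
  exact le_of_abs_le (abs_le_of_sq_le_sq h6 (by positivity))

lemma NLP_scale (u v p : ℝ) (hu : 0 ≤ u) (huv : u ≤ v) : (u * p) ^ 2 ≤ (v * p) ^ 2 := by
  have : u ^ 2 ≤ v ^ 2 := pow_le_pow_left₀ hu huv 2
  rw [mul_pow, mul_pow]
  exact mul_le_mul_of_nonneg_right this (sq_nonneg _)

theorem sNlp : SNlp := by
  intro β₁ β₂ h1 h2 h12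
  have hsq : ∀ L : ℝ, √L = L ^ ((1 : ℝ) / 2) := fun L => Real.sqrt_eq_rpow L
  refine ⟨?_, ?_, ?_, ?_, ?_, ?_, ?_⟩
  · intro L p hL
    constructor
    · apply NLP_nm_mono
      · have := NLP_scale 1 (L ^ β₁) p.1 zero_le_one (Real.one_le_rpow hL h1.le)
        simpa using this
      · have := NLP_scale 1 (L ^ β₂) p.2 zero_le_one (Real.one_le_rpow hL h2.le)
        simpa using this
    · rw [← NLP_nm_smul _ (Real.sqrt_nonneg L)]
      apply NLP_nm_mono
      · apply NLP_scale _ _ _ (by positivity)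
        rw [hsq]
        exact Real.rpow_le_rpow_of_exponent_le hL (by linarith)
      · apply NLP_scale _ _ _ (by positivity)
        rw [hsq]
        exact Real.rpow_le_rpow_of_exponent_le hL (by linarith)
  · intro L p hL
    unfold NL
    rw [← NLP_nm_smul _ (Real.sqrt_nonneg 2)]
    apply NLP_nm_mono
    · simp only [← mul_assoc]
      apply NLP_scale _ _ _ (by positivity)
      rw [Real.mul_rpow (by norm_num) (by linarith), hsq]
      apply mul_le_mul_of_nonneg_right _ (by positivity)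
      exact Real.rpow_le_rpow_of_exponent_le (by norm_num) (by linarith)
    · simp only [← mul_assoc]
      apply NLP_scale _ _ _ (by positivity)
      rw [Real.mul_rpow (by norm_num) (by linarith), hsq]
      apply mul_le_mul_of_nonneg_right _ (by positivity)
      exact Real.rpow_le_rpow_of_exponent_le (by norm_num) (by linarith)
  · intro L p c hL hc hc1 hc2
    unfold NL
    rw [← NLP_nm_smul _ hc]
    apply NLP_nm_mono
    · simp only [← mul_assoc]
      apply NLP_scale _ _ _ (by positivity)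
      rw [Real.mul_rpow (by norm_num) (by linarith)]
      apply mul_le_mul_of_nonneg_right hc1 (by positivity)
    · simp only [← mul_assoc]
      apply NLP_scale _ _ _ (by positivity)
      rw [Real.mul_rpow (by norm_num) (by linarith)]
      apply mul_le_mul_of_nonneg_right hc2 (by positivity)
  · intro L L' p hL hLL
    apply NLP_nm_mono
    · apply NLP_scale _ _ _ (by positivity)
      exact Real.rpow_le_rpow (by linarith) hLL h1.le
    · apply NLP_scale _ _ _ (by positivity)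
      exact Real.rpow_le_rpow (by linarith) hLL h2.le
  · intro L p q
    unfold NL
    have := NLP_nm_add (L ^ β₁ * p.1, L ^ β₂ * p.2) (L ^ β₁ * q.1, L ^ β₂ * q.2)
    simpa [mul_add] using this
  · intro L A p hL hdet
    unfold TA tau
    rw [div_mul_eq_mul_div]
    apply div_le_div_of_nonneg_right _ hdet.le
    unfold NL
    rw [NLP_nm_sq, NLP_nm_sq]
    simp only [Mat.tr]
    have e1 : p.1 = L ^ (-β₁) * (L ^ β₁ * p.1) := by
      rw [← mul_assoc, ← Real.rpow_add (by linarith)]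
      simp
    have e2 : p.2 = L ^ (-β₂) * (L ^ β₂ * p.2) := by
      rw [← mul_assoc, ← Real.rpow_add (by linarith)]
      simp
    set P1 := L ^ β₁ * p.1
    set P2 := L ^ β₂ * p.2
    set u := L ^ (-β₁)
    set v := L ^ (-β₂)
    rw [e1, e2]
    nlinarith [sq_nonneg (A.a * u * P2 - A.c * v * P1), sq_nonneg (A.b * u * P2 - A.d * v * P1)]
  · intro L A hL hdet
    unfold tau
    apply div_le_div_of_nonneg_right _ hdet.le
    have e1 : ((2 * L) ^ (-β₁)) ^ 2 ≤ (L ^ (-β₁)) ^ 2 := by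
      apply pow_le_pow_left₀ (by positivity)
      exact Real.rpow_le_rpow_of_nonpos (by linarith) (by linarith) (by linarith)
    have e2 : ((2 * L) ^ (-β₂)) ^ 2 ≤ (L ^ (-β₂)) ^ 2 := by
      apply pow_le_pow_left₀ (by positivity)
      exact Real.rpow_le_rpow_of_nonpos (by linarith) (by linarith) (by linarith)
    have := mul_le_mul_of_nonneg_right e1 (show 0 ≤ A.a ^ 2 + A.b ^ 2 by positivity)
    have := mul_le_mul_of_nonneg_right e2 (show 0 ≤ A.c ^ 2 + A.d ^ 2 by positivity)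
    linarith

end Pool.UMD
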