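import Pool.Agent.H37.UMD.Stmts

set_option autoImplicit false

open MeasureTheory ProbabilityTheory

namespace Pool.UMD

/-- Measurable and bounded. -/
def ONE_B (f : ℝ → ℝ) : Prop := Measurable f ∧ ∃ C : ℝ, ∀ g, |f g| ≤ C

lemma ONE_B.int {f : ℝ → ℝ} (h : ONE_B f) : Integrable f g1 := by
  obtain ⟨hm, C, hC⟩ := h
  exact Integrable.of_bound hm.aestronglyMeasurable C (Filter.Eventually.of_forall hC)

lemma ONE_B.add {f g : ℝ → ℝ} (hf : ONE_B f) (hg : ONE_B g) : ONE_B (fun x => f x + g x) := by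
  obtain ⟨hm, C, hC⟩ := hf
  obtain ⟨hm', C', hC'⟩ := hg
  exact ⟨hm.add hm', C + C', fun x => (abs_add_le _ _).trans (add_le_add (hC x) (hC' x))⟩

lemma ONE_B.sub {f g : ℝ → ℝ} (hf : ONE_B f) (hg : ONE_B g) : ONE_B (fun x => f x - g x) := by
  obtain ⟨hm, C, hC⟩ := hf
  obtain ⟨hm', C', hC'⟩ := hg
  exact ⟨hm.sub hm', C + C', fun x => (abs_sub _ _).trans (add_le_add (hC x) (hC' x))⟩

lemma ONE_B.mul {f g : ℝ → ℝ} (hf : ONE_B f) (hg : ONE_B g) : ONE_B (fun x => f x * g x) := by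
  obtain ⟨hm, C, hC⟩ := hf
  obtain ⟨hm', C', hC'⟩ := hg
  refine ⟨hm.mul hm', C * C', fun x => ?_⟩
  rw [abs_mul]
  exact mul_le_mul (hC x) (hC' x) (abs_nonneg _) ((abs_nonneg _).trans (hC x))

lemma ONE_B.const (c : ℝ) : ONE_B (fun _ => c) := ⟨measurable_const, |c|, fun _ => le_rfl⟩

lemma ONE_B.log {f : ℝ → ℝ} (hf : ONE_B f) (h1 : ∀ x, 1 ≤ f x) :
    ONE_B (fun x => Real.log (f x)) := by
  obtain ⟨hm, C, hC⟩ := hf
  refine ⟨Real.measurable_log.comp hm, C, fun x => ?_⟩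
  rw [abs_of_nonneg (Real.log_nonneg (h1 x))]
  have h2 := Real.log_le_sub_one_of_pos (lt_of_lt_of_le one_pos (h1 x))
  have h3 := (le_abs_self _).trans (hC x)
  linarith

lemma ONE_B.of_le {f : ℝ → ℝ} (hm : Measurable f) (C : ℝ) (h0 : ∀ x, 0 ≤ f x)
    (h1 : ∀ x, f x ≤ C) : ONE_B f :=
  ⟨hm, C, fun x => by rw [abs_of_nonneg (h0 x)]; exact h1 x⟩

lemma ONE_B.addc (c : ℝ) {f h : ℝ → ℝ} (hf : ONE_B f) (hh : ONE_B h) :
    ONE_B (fun x => c * f x + h x) := ((ONE_B.const c).mul hf).add hh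

lemma ONE_iaddc (c : ℝ) {f h : ℝ → ℝ} (hf : ONE_B f) (hh : ONE_B h) :
    ∫ x, (c * f x + h x) ∂g1 = c * ∫ x, f x ∂g1 + ∫ x, h x ∂g1 := by
  rw [integral_add ((ONE_B.const c).mul hf).int hh.int, integral_const_mul]

lemma ONE_nm_nonneg (x : ℝ × ℝ) : 0 ≤ nm x := Real.sqrt_nonneg _

lemma ONE_nm_sq (x : ℝ × ℝ) : (nm x) ^ 2 = x.1 ^ 2 + x.2 ^ 2 := by
  unfold nm
  exact Real.sq_sqrt (by positivity)

lemma ONE_nm_le (x : ℝ × ℝ) : nm x ≤ |x.1| + |x.2| := by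
  unfold nm
  apply Real.sqrt_le_iff.mpr
  refine ⟨by positivity, ?_⟩
  have h1 := sq_abs x.1
  have h2 := sq_abs x.2
  have := mul_nonneg (abs_nonneg x.1) (abs_nonneg x.2)
  nlinarith

lemma ONE_NL_nonneg (β₁ β₂ L : ℝ) (x : ℝ × ℝ) : 0 ≤ NL β₁ β₂ L x := ONE_nm_nonneg _

lemma ONE_NL_neg (β₁ β₂ L : ℝ) (x : ℝ × ℝ) : NL β₁ β₂ L (-x) = NL β₁ β₂ L x := by
  unfold NL nm
  simp

lemma ONE_nm_meas : Measurable nm := by
  unfold nm
  fun_prop

lemma ONE_NL_meas (β₁ β₂ L : ℝ) : Measurable (NL β₁ β₂ L) := by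
  unfold NL nm
  fun_prop

lemma ONE_TA_meas (A : Mat) : Measurable (TA A) := by
  unfold TA nm Mat.tr
  fun_prop

lemma ONE_TA_nonneg (A : Mat) (h : 0 < A.det) (p : ℝ × ℝ) : 0 ≤ TA A p := by
  unfold TA
  positivity

lemma ONE_FL_meas (β₁ β₂ L : ℝ) (A : Mat) : Measurable (FL β₁ β₂ L A) := by
  have h1 := ONE_TA_meas A
  have h2 := ONE_NL_meas β₁ β₂ L
  unfold FL
  apply Measurable.div _ h2
  apply Measurable.pow_const
  apply Measurable.max _ measurable_const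
  apply Measurable.sub
  · exact Real.continuous_sqrt.measurable.comp h1
  · exact h2.const_mul _

lemma ONE_FL_nonneg (β₁ β₂ L : ℝ) (A : Mat) (p : ℝ × ℝ) : 0 ≤ FL β₁ β₂ L A p := by
  unfold FL
  exact div_nonneg (sq_nonneg _) (ONE_NL_nonneg _ _ _ _)

lemma ONE_FL_le (β₁ β₂ L : ℝ) (A : Mat) (h : 0 < A.det) (p : ℝ × ℝ)
    (hT : TA A p ≤ 6 * NL β₁ β₂ L p ^ 2) : FL β₁ β₂ L A p ≤ 6 * NL β₁ β₂ L p := by
  have hN := ONE_NL_nonneg β₁ β₂ L p
  rcases hN.eq_or_lt with h0 | h0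
  · unfold FL
    rw [← h0]
    simp
  · unfold FL
    rw [div_le_iff₀ h0]
    have h1 : max (√(TA A p) - √(40 / L) * NL β₁ β₂ L p) 0 ≤ √(TA A p) := by
      apply max_le _ (Real.sqrt_nonneg _)
      have := mul_nonneg (Real.sqrt_nonneg (40 / L)) hN
      linarith
    have h2 := pow_le_pow_left₀ (le_max_right _ _) h1 2
    rw [Real.sq_sqrt (ONE_TA_nonneg A h p)] at h2
    calc _ ≤ _ := h2
      _ ≤ _ := hT
      _ = _ := by ring

/-- `F_{A'}(p) ≤ (3/5) F_A(p)`. -/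
lemma ONE_FL_con (β₁ β₂ L : ℝ) (A A' : Mat) (hL : 16 ≤ L) (p : ℝ × ℝ)
    (h1 : TA A p ≤ 20 / L * NL β₁ β₂ L p ^ 2 → TA A' p ≤ 2 * TA A p)
    (h2 : 20 / L * NL β₁ β₂ L p ^ 2 < TA A p → TA A' p ≤ 3 / 5 * TA A p) :
    FL β₁ β₂ L A' p ≤ 3 / 5 * FL β₁ β₂ L A p := by
  have hN := ONE_NL_nonneg β₁ β₂ L p
  have hL0 : (0 : ℝ) < L := by linarith
  rcases le_or_gt (TA A p) (20 / L * NL β₁ β₂ L p ^ 2) with hc | hc
  · have h3 := h1 hc
    have h4 : TA A' p ≤ (√(40 / L) * NL β₁ β₂ L p) ^ 2 := by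
      rw [mul_pow, Real.sq_sqrt (by positivity)]
      have : 2 * (20 / L * NL β₁ β₂ L p ^ 2) = 40 / L * NL β₁ β₂ L p ^ 2 := by ring
      linarith
    have h5 : √(TA A' p) ≤ √(40 / L) * NL β₁ β₂ L p :=
      Real.sqrt_le_iff.mpr ⟨by positivity, h4⟩
    have h6 : max (√(TA A' p) - √(40 / L) * NL β₁ β₂ L p) 0 = 0 :=
      max_eq_right (by linarith)
    have h7 : FL β₁ β₂ L A' p = 0 := by
      unfold FL
      rw [h6]
      simp
    rw [h7]
    have := ONE_FL_nonneg β₁ β₂ L A p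
    linarith
  · have h3 := h2 hc
    have h4 : √(TA A' p) ≤ √(3 / 5) * √(TA A p) := by
      rw [← Real.sqrt_mul (by norm_num)]
      exact Real.sqrt_le_sqrt h3
    have h5 : √(3 / 5 : ℝ) ≤ 1 := by
      exact Real.sqrt_le_iff.mpr ⟨by norm_num, by norm_num⟩
    have h6 : (0 : ℝ) ≤ √(3 / 5 : ℝ) := Real.sqrt_nonneg _
    have h7 : max (√(TA A' p) - √(40 / L) * NL β₁ β₂ L p) 0 ≤
        √(3 / 5) * max (√(TA A p) - √(40 / L) * NL β₁ β₂ L p) 0 := by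
      apply max_le
      · have h8 : √(3 / 5 : ℝ) * (√(TA A p) - √(40 / L) * NL β₁ β₂ L p) ≤
            √(3 / 5) * max (√(TA A p) - √(40 / L) * NL β₁ β₂ L p) 0 :=
          mul_le_mul_of_nonneg_left (le_max_left _ _) h6
        have h9 : 0 ≤ √(40 / L) * NL β₁ β₂ L p := by positivity
        nlinarith
      · exact mul_nonneg h6 (le_max_right _ _)
    have h8 := pow_le_pow_left₀ (le_max_right _ _) h7 2
    rw [mul_pow, Real.sq_sqrt (by norm_num)] at h8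
    unfold FL
    rw [← mul_div_assoc]
    exact div_le_div_of_nonneg_right h8 hN

lemma ONE_ZZ_pos (Λ : ℕ) (Cv ξ : ℝ) : 0 < ZZ Λ Cv ξ := by
  unfold ZZ
  apply Finset.sum_pos
  · intro i _
    exact Real.exp_pos _
  · exact ⟨0, by simp⟩

lemma ONE_m1 (Cb L EN ER EF ET N0 R0 F0 F0' D16 : ℝ) (hCb : 1560 ≤ Cb)
    (hexc : N0 ≤ EN) (hD : D16 ≤ 16 * F0)
    (hcst : ET ≤ 120 * (EN - N0) + 1920 / L * (ER - R0) + D16)
    (hdri : EF ≤ F0' + 36 * (EN - N0)) (hF : F0' ≤ 3 / 5 * F0) :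
    -Cb * EN - 1920 / L * ER + 40 * EF + ET ≤ -Cb * N0 - 1920 / L * R0 + 40 * F0 := by
  have h1 : 0 ≤ (Cb - 1560) * (EN - N0) := mul_nonneg (by linarith) (by linarith)
  nlinarith

/-- The one-dimensional core of the one step inequality. -/
lemma ONE_core (hCst : SCst) (hDri : SDri) (hGib : SGib) (hNlp : SNlp) (hJen : SJen)
    (hRho : SRho) (β₁ β₂ L : ℝ) (hb1 : 0 < β₁) (hb2 : 0 < β₂) (hbs : β₁ + β₂ = 1 / 2)
    (hL : 16 ≤ L) (A A' : Mat) (hdet : 0 < A.det) (hdet' : 0 < A'.det)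
    (htau : tau β₁ β₂ L A ≤ 6) (htau' : tau β₁ β₂ L A' ≤ 6)
    (p : ℝ × ℝ) (q : ℝ → ℝ × ℝ) (B : ℝ) (hq : Measurable q)
    (hqB : ∀ g, |(q g).1| ≤ B ∧ |(q g).2| ≤ B)
    (hp1 : ∫ g, (q g).1 ∂g1 = p.1) (hp2 : ∫ g, (q g).2 ∂g1 = p.2)
    (φ : ℝ) (f : ℝ → ℝ) (hf : Measurable f) (hfB : ∀ g, f g ≤ B)
    (hφ : 1 + NL β₁ β₂ L p ≤ φ) (hfq : ∀ g, 1 + NL β₁ β₂ L (q g) ≤ f g)
    (hfi : ∫ g, f g ∂g1 = φ)
    (hexp : 1 + NL β₁ β₂ L p ≤ Real.exp (2 * L + 1))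
    (h1 : TA A p ≤ 20 / L * NL β₁ β₂ L p ^ 2 → TA A' p ≤ 2 * TA A p)
    (h2 : 20 / L * NL β₁ β₂ L p ^ 2 < TA A p → TA A' p ≤ 3 / 5 * TA A p)
    (Ca Cb Ce K κ : ℝ) (hCb : 1560 ≤ Cb) (hCe : 0 < Ce) (hK : 10 ≤ K)
    (u z : ℝ → ℝ) (hu : ONE_B u) (hz : ONE_B z) (hu1 : ∀ g, 1 ≤ u g) (hz1 : ∀ g, 1 ≤ z g)
    (Z : ℝ) (hZ : (∫ g, u g ∂g1) * (∫ g, u g * z g ∂g1) ≤ Z)
    (Rc Xc : ℝ → ℝ) (hR0 : ∀ g, 0 ≤ Rc g) (hX0 : ∀ g, 0 ≤ Xc g)
    (hR : ∀ g, Rc g ≤ √K * (Ca * ((1 + 1 / L) * f g) - Cb * NL β₁ β₂ L (q g)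
        - 1920 / L * rho L (NL β₁ β₂ L (q g)) + 40 * FL β₁ β₂ L A' (q g))
        + Ce / √K * ((1 + 1 / L) * f g) * (κ - Real.log ((1 + 1 / L) * f g)
          + Real.log (z g)))
    (hX : ∀ g, Xc g ≤ √K * (TA A (q g - p) / (φ + f g))
        + Ce / √K * (φ + f g) * (3 + Real.log (u g))) :
    ∫ g, Rc g ∂g1 + ∫ g, Xc g ∂g1 ≤
    √K * (Ca * ((1 + 1 / L) * φ) - Cb * NL β₁ β₂ L p
        - 1920 / L * rho L (NL β₁ β₂ L p) + 40 * FL β₁ β₂ L A p)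
        + Ce / √K * ((1 + 1 / L) * φ) * (κ + 6 - Real.log ((1 + 1 / L) * φ)
          + Real.log Z) := by
  obtain ⟨n1, n2, n3, n4, n5, n6, n7⟩ := hNlp β₁ β₂ hb1 hb2 hbs
  obtain ⟨r1, r2, r3, r4⟩ := hRho L (by linarith)
  have hL0 : (0 : ℝ) < L := by linarith
  have hB0 : 0 ≤ B := (abs_nonneg _).trans (hqB 0).1
  -- the functions
  have bN : ONE_B (fun g => NL β₁ β₂ L (q g)) := by
    apply ONE_B.of_le ((ONE_NL_meas β₁ β₂ L).comp hq) (√L * (2 * B))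
    · intro g
      exact ONE_NL_nonneg _ _ _ _
    · intro g
      refine ((n1 L (q g) (by linarith)).2).trans ?_
      apply mul_le_mul_of_nonneg_left _ (Real.sqrt_nonneg _)
      have := ONE_nm_le (q g)
      have := hqB g
      linarith
  have bR : ONE_B (fun g => rho L (NL β₁ β₂ L (q g))) := by
    obtain ⟨mN, C, hC⟩ := bN
    apply ONE_B.of_le (r3.comp mN) ((2 * L + 2) * C)
    · intro g
      exact (r1 _ (ONE_NL_nonneg _ _ _ _)).1
    · intro g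
      refine ((r1 _ (ONE_NL_nonneg _ _ _ _)).2).trans ?_
      apply mul_le_mul_of_nonneg_left _ (by linarith)
      exact (le_abs_self _).trans (hC g)
  have hTA : ∀ x, TA A x ≤ 6 * NL β₁ β₂ L x ^ 2 := fun x =>
    (n6 L A x (by linarith) hdet).trans (mul_le_mul_of_nonneg_right htau (sq_nonneg _))
  have hTA' : ∀ x, TA A' x ≤ 6 * NL β₁ β₂ L x ^ 2 := fun x =>
    (n6 L A' x (by linarith) hdet').trans (mul_le_mul_of_nonneg_right htau' (sq_nonneg _))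
  have bF : ONE_B (fun g => FL β₁ β₂ L A' (q g)) := by
    obtain ⟨mN, C, hC⟩ := bN
    apply ONE_B.of_le ((ONE_FL_meas β₁ β₂ L A').comp hq) (6 * C)
    · intro g
      exact ONE_FL_nonneg _ _ _ _ _
    · intro g
      refine (ONE_FL_le _ _ _ _ hdet' _ (hTA' _)).trans ?_
      have := (le_abs_self _).trans (hC g)
      linarith
  have hf1 : ∀ g, 1 ≤ f g := fun g => by
    have := hfq g
    have := ONE_NL_nonneg β₁ β₂ L (q g)
    linarith
  have hφ1 : 1 ≤ φ := by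
    have := ONE_NL_nonneg β₁ β₂ L p
    linarith
  have bf : ONE_B f := ONE_B.of_le hf B (fun g => by linarith [hf1 g]) hfB
  have bT : ONE_B (fun g => TA A (q g - p) / (φ + f g)) := by
    obtain ⟨mN, C, hC⟩ := bN
    apply ONE_B.of_le _ (6 * (C + NL β₁ β₂ L p) ^ 2)
    · intro g
      exact div_nonneg (ONE_TA_nonneg A hdet _) (by linarith [hf1 g])
    · intro g
      rw [div_le_iff₀ (by linarith [hf1 g])]
      have e1 : NL β₁ β₂ L (q g - p) ≤ C + NL β₁ β₂ L p := by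
        have e2 := n5 L (q g) (-p)
        rw [ONE_NL_neg, ← sub_eq_add_neg] at e2
        have := (le_abs_self _).trans (hC g)
        linarith
      have e3 := pow_le_pow_left₀ (ONE_NL_nonneg β₁ β₂ L (q g - p)) e1 2
      have e4 := hTA (q g - p)
      have e5 : 6 * (C + NL β₁ β₂ L p) ^ 2 ≤ 6 * (C + NL β₁ β₂ L p) ^ 2 * (φ + f g) := by
        apply le_mul_of_one_le_right (by positivity)
        linarith [hf1 g]
      linarith
    · exact ((ONE_TA_meas A).comp (hq.sub_const p)).div (hf.const_add φ)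
  have bU : ONE_B (fun g => Real.log (u g)) := hu.log hu1
  have bz : ONE_B (fun g => Real.log (z g)) := hz.log hz1
  obtain ⟨b, hbdef⟩ : ∃ b : ℝ, b = 1 + 1 / L := ⟨_, rfl⟩
  rw [← hbdef] at hR ⊢
  have hb : 1 ≤ b := by
    have : 0 < 1 / L := by positivity
    linarith
  have hbf : ∀ g, 1 ≤ b * f g := fun g => by nlinarith [hf1 g]
  have bbf : ONE_B (fun g => b * f g) := (ONE_B.const b).mul bf
  have bl : ONE_B (fun g => Real.log (b * f g)) := bbf.log hbf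
  have bJ : ONE_B (fun g => (b * f g) * ((Real.log (u g) + Real.log (z g))
      - Real.log (b * f g))) := bbf.mul ((bU.add bz).sub bl)
  -- scalars
  have hs : 0 < √K := Real.sqrt_pos.mpr (by linarith)
  obtain ⟨s, hsdef⟩ : ∃ s : ℝ, s = √K := ⟨_, rfl⟩
  rw [← hsdef] at hs hR hX ⊢
  obtain ⟨d, hddef⟩ : ∃ d : ℝ, d = Ce / s := ⟨_, rfl⟩
  rw [← hddef] at hR hX ⊢
  have hd : 0 < d := by rw [hddef]; positivity
  have i1 : ONE_B (fun g => s * (Ca * (b * f g) - Cb * NL β₁ β₂ L (q g)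
        - 1920 / L * rho L (NL β₁ β₂ L (q g)) + 40 * FL β₁ β₂ L A' (q g))
        + d * (b * f g) * (κ - Real.log (b * f g) + Real.log (z g))) :=
    ((ONE_B.const s).mul (((((ONE_B.const Ca).mul bbf).sub ((ONE_B.const Cb).mul bN)).sub
      ((ONE_B.const _).mul bR)).add ((ONE_B.const 40).mul bF))).add
      (((ONE_B.const d).mul bbf).mul (((ONE_B.const κ).sub bl).add bz))
  have i2 : ONE_B (fun g => s * (TA A (q g - p) / (φ + f g))
        + d * (φ + f g) * (3 + Real.log (u g))) :=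
    ((ONE_B.const s).mul bT).add (((ONE_B.const d).mul ((ONE_B.const φ).add bf)).mul
      ((ONE_B.const 3).add bU))
  have j1 := integral_mono_of_nonneg (ae_of_all g1 hR0) i1.int (ae_of_all g1 hR)
  have j2 := integral_mono_of_nonneg (ae_of_all g1 hX0) i2.int (ae_of_all g1 hX)
  refine (add_le_add j1 j2).trans ?_
  rw [← integral_add i1.int i2.int]
  -- the pointwise bound
  have i8 := ONE_B.const (d * 3 * (b * φ))
  have i7 := ONE_B.addc d bJ i8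
  have i6 := ONE_B.addc (d * (b * φ)) bU i7
  have i5 := ONE_B.addc s bT i6
  have i4 := ONE_B.addc (s * 40) bF i5
  have i3 := ONE_B.addc (-(s * (1920 / L))) bR i4
  have i2' := ONE_B.addc (-(s * Cb)) bN i3
  have i1' := ONE_B.addc (s * Ca * b + d * (κ + 3) * b) bf i2'
  have hpt : ∀ g, (s * (Ca * (b * f g) - Cb * NL β₁ β₂ L (q g)
        - 1920 / L * rho L (NL β₁ β₂ L (q g)) + 40 * FL β₁ β₂ L A' (q g))
        + d * (b * f g) * (κ - Real.log (b * f g) + Real.log (z g))) +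
      (s * (TA A (q g - p) / (φ + f g)) + d * (φ + f g) * (3 + Real.log (u g))) ≤
      (s * Ca * b + d * (κ + 3) * b) * f g + ((-(s * Cb)) * NL β₁ β₂ L (q g) +
        ((-(s * (1920 / L))) * rho L (NL β₁ β₂ L (q g)) + (s * 40 * FL β₁ β₂ L A' (q g) +
        (s * (TA A (q g - p) / (φ + f g)) + (d * (b * φ) * Real.log (u g) +
        (d * ((b * f g) * ((Real.log (u g) + Real.log (z g)) - Real.log (b * f g))) +
          d * 3 * (b * φ))))))) := by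
    intro g
    have hU0 : 0 ≤ Real.log (u g) := Real.log_nonneg (hu1 g)
    have k1 : 0 ≤ d * ((b - 1) * φ) := by
      have : 0 ≤ b - 1 := by linarith
      positivity
    have k2 : 0 ≤ d * ((b - 1) * f g) := by
      have : 0 ≤ b - 1 := by linarith
      have := hf1 g
      positivity
    have k3 := mul_nonneg k1 hU0
    have k4 := mul_nonneg k2 hU0
    nlinarith
  refine (integral_mono (i1.add i2).int i1'.int hpt).trans ?_
  rw [ONE_iaddc _ bf i2', ONE_iaddc _ bN i3, ONE_iaddc _ bR i4, ONE_iaddc _ bF i5,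
    ONE_iaddc _ bT i6, ONE_iaddc _ bU i7, ONE_iaddc _ bJ i8, hfi]
  have hcc : ∫ _ : ℝ, d * 3 * (b * φ) ∂g1 = d * 3 * (b * φ) := by simp
  rw [hcc]
  -- the inputs
  have hqB' : ∀ g, |(q g).1| ≤ B ∧ |(q g).2| ≤ B ∧ f g ≤ B := fun g =>
    ⟨(hqB g).1, (hqB g).2, hfB g⟩
  have hcst := hCst β₁ β₂ hb1 hb2 hbs L hL A hdet htau p q φ f B hq hf hqB' hp1 hp2 hφ hfq hexp
  have hdri := hDri β₁ β₂ hb1 hb2 hbs L hL A' hdet' htau' p q B hq hqB hp1 hp2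
  have hexc := hJen β₁ β₂ L g1 q B hq hqB
  rw [hp1, hp2] at hexc
  have hF := ONE_FL_con β₁ β₂ L A A' hL p h1 h2
  have hD : (if 160 / L * NL β₁ β₂ L p ^ 2 < TA A p then 16 * FL β₁ β₂ L A p else 0) ≤
      16 * FL β₁ β₂ L A p := by
    split_ifs
    · exact le_rfl
    · have := ONE_FL_nonneg β₁ β₂ L A p
      linarith
  have m1 := ONE_m1 Cb L _ _ _ _ _ _ _ _ _ hCb hexc hD hcst hdri hF
  -- Gibbs
  have hg1 : ∫ g, ((b * f g) * ((Real.log (u g) + Real.log (z g)) - Real.log (b * f g))) ∂g1 ≤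
      (b * φ) * (Real.log (∫ g, u g * z g ∂g1) - Real.log (b * φ)) := by
    obtain ⟨mf, C1, hC1⟩ := bbf
    obtain ⟨mX, C2, hC2⟩ := bU.add bz
    have e1 := hGib (fun g => b * f g) (fun g => Real.log (u g) + Real.log (z g)) (max C1 C2)
      mf mX (fun g => ⟨hbf g, ((le_abs_self _).trans (hC1 g)).trans (le_max_left _ _)⟩)
      (fun g => (hC2 g).trans (le_max_right _ _))
    have e2 : ∫ g, b * f g ∂g1 = b * φ := by rw [integral_const_mul, hfi]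
    have e3 : ∫ g, Real.exp (Real.log (u g) + Real.log (z g)) ∂g1 = ∫ g, u g * z g ∂g1 := by
      congr 1
      ext g
      rw [Real.exp_add, Real.exp_log (lt_of_lt_of_le one_pos (hu1 g)),
        Real.exp_log (lt_of_lt_of_le one_pos (hz1 g))]
    simp only [e2, e3] at e1
    exact e1
  have hg2 : ∫ g, Real.log (u g) ∂g1 ≤ Real.log (∫ g, u g ∂g1) := by
    obtain ⟨mX, C2, hC2⟩ := bU
    have e1 := hGib (fun _ => 1) (fun g => Real.log (u g)) (max 1 C2)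
      measurable_const mX (fun g => ⟨le_rfl, le_max_left _ _⟩)
      (fun g => (hC2 g).trans (le_max_right _ _))
    have e3 : ∫ g, Real.exp (Real.log (u g)) ∂g1 = ∫ g, u g ∂g1 := by
      congr 1
      ext g
      rw [Real.exp_log (lt_of_lt_of_le one_pos (hu1 g))]
    simp only [e3] at e1
    simpa using e1
  have hu2 : 1 ≤ ∫ g, u g ∂g1 := by
    have := integral_mono (ONE_B.const 1).int hu.int hu1
    simpa using this
  have huz1 : ∀ g, 1 ≤ u g * z g := fun g => by nlinarith [hu1 g, hz1 g]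
  have huz2 : 1 ≤ ∫ g, u g * z g ∂g1 := by
    have := integral_mono (ONE_B.const 1).int (hu.mul hz).int huz1
    simpa using this
  have hlog : Real.log (∫ g, u g ∂g1) + Real.log (∫ g, u g * z g ∂g1) ≤ Real.log Z := by
    rw [← Real.log_mul (by positivity) (by positivity)]
    exact Real.log_le_log (by positivity) hZ
  have hbφ : 0 ≤ b * φ := by positivity
  have m2 : (b * φ) * ∫ g, Real.log (u g) ∂g1 +
      ∫ g, ((b * f g) * ((Real.log (u g) + Real.log (z g)) - Real.log (b * f g))) ∂g1 ≤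
      (b * φ) * (Real.log Z - Real.log (b * φ)) := by
    have e1 := mul_le_mul_of_nonneg_left hg2 hbφ
    have e2 := mul_le_mul_of_nonneg_left hlog hbφ
    linarith
  have m1' := mul_le_mul_of_nonneg_left m1 hs.le
  have m2' := mul_le_mul_of_nonneg_left m2 hd.le
  nlinarith

lemma ONE_ap_meas (a : ℝ × ℝ) (A : Mat) : Measurable (fun z => a + A.ap z) := by
  unfold Mat.ap
  fun_prop

lemma ONE_int2 {f : ℝ × ℝ → ℝ} {M : ℝ} (hf : Bd f M) (a : ℝ × ℝ) (A : Mat) :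
    Integrable (fun z => f (a + A.ap z)) g2 :=
  Integrable.of_bound (hf.1.comp (ONE_ap_meas a A)).aestronglyMeasurable M
    (Filter.Eventually.of_forall fun _ => hf.2 _)

lemma ONE_T0 {G G1 G2 : ℝ × ℝ → ℝ} {T : ℝ} (hG : Sm G G1 G2 T) : 0 ≤ T :=
  (abs_nonneg _).trans (hG.b0 0)

lemma ONE_nmT {G G1 G2 : ℝ × ℝ → ℝ} {T : ℝ} (hG : Sm G G1 G2 T) (x : ℝ × ℝ) :
    nm (G1 x, G2 x) ≤ 2 * T := by
  have h1 := ONE_nm_le (G1 x, G2 x)
  have h2 := hG.b1 x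
  have h3 := hG.b2 x
  simp only at h1
  linarith

lemma ONE_gm {G G1 G2 : ℝ × ℝ → ℝ} {T : ℝ} (hG : Sm G G1 G2 T) :
    Measurable (fun x => (G1 x, G2 x)) :=
  hG.c1.measurable.prodMk hG.c2.measurable

lemma ONE_nmB {G G1 G2 : ℝ × ℝ → ℝ} {T : ℝ} (hG : Sm G G1 G2 T) :
    Bd (fun x => nm (G1 x, G2 x)) (2 * T) :=
  ⟨ONE_nm_meas.comp (ONE_gm hG), fun x => by
    rw [abs_of_nonneg (ONE_nm_nonneg _)]
    exact ONE_nmT hG x⟩

lemma ONE_NLB (hNlp : SNlp) {β₁ β₂ L : ℝ} (hb1 : 0 < β₁) (hb2 : 0 < β₂)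
    (hbs : β₁ + β₂ = 1 / 2) (hL : 1 ≤ L) {G G1 G2 : ℝ × ℝ → ℝ} {T : ℝ} (hG : Sm G G1 G2 T) :
    Bd (fun x => NL β₁ β₂ L (G1 x, G2 x)) (√L * (2 * T)) :=
  ⟨(ONE_NL_meas β₁ β₂ L).comp (ONE_gm hG), fun x => by
    rw [abs_of_nonneg (ONE_NL_nonneg _ _ _ _)]
    exact (((hNlp β₁ β₂ hb1 hb2 hbs).1 L _ hL).2).trans
      (mul_le_mul_of_nonneg_left (ONE_nmT hG x) (Real.sqrt_nonneg _))⟩

lemma ONE_thB (hThp : SThp) {β₁ β₂ L : ℝ} (hb1 : 0 < β₁) (hb2 : 0 < β₂)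
    (hbs : β₁ + β₂ = 1 / 2) (hL : 1 ≤ L) {G G1 G2 : ℝ × ℝ → ℝ} {T : ℝ} (hG : Sm G G1 G2 T) :
    Bd (fun x => th β₁ β₂ L (G1 x, G2 x))
      (1 + √(max L (4 * Real.log (1 + 2 * T))) * (2 * T)) := by
  obtain ⟨t1, t2, t3, t4⟩ := hThp β₁ β₂ hb1 hb2 hbs
  refine ⟨(t1 L hL).measurable.comp (ONE_gm hG), fun x => ?_⟩
  have h1 := t2 L (G1 x, G2 x) hL
  have h2 := ONE_NL_nonneg β₁ β₂ L (G1 x, G2 x)
  rw [abs_of_nonneg (by linarith)]
  refine (t4 L _ hL).trans ?_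
  have h3 := ONE_nmT hG x
  have h4 := ONE_nm_nonneg (G1 x, G2 x)
  have h5 : √(max L (4 * Real.log (1 + nm (G1 x, G2 x)))) ≤
      √(max L (4 * Real.log (1 + 2 * T))) := by
    apply Real.sqrt_le_sqrt
    apply max_le_max le_rfl
    apply mul_le_mul_of_nonneg_left _ (by norm_num)
    exact Real.log_le_log (by linarith) (by linarith)
  have h6 := mul_le_mul h5 h3 h4 (Real.sqrt_nonneg _)
  linarith

lemma ONE_lb (hNlp : SNlp) (hJen : SJen) (hThp : SThp) {β₁ β₂ L : ℝ} (hb1 : 0 < β₁)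
    (hb2 : 0 < β₂) (hbs : β₁ + β₂ = 1 / 2) (hL : 1 ≤ L) {G G1 G2 : ℝ × ℝ → ℝ} {T : ℝ}
    (hG : Sm G G1 G2 T) (a : ℝ × ℝ) (A : Mat) :
    1 + NL β₁ β₂ L (gp G1 G2 a A) ≤ ph β₁ β₂ G1 G2 L a A := by
  obtain ⟨t1, t2, t3, t4⟩ := hThp β₁ β₂ hb1 hb2 hbs
  have h1 := hJen β₁ β₂ L g2 (fun z => (G1 (a + A.ap z), G2 (a + A.ap z))) T
    ((ONE_gm hG).comp (ONE_ap_meas a A)) (fun z => ⟨hG.b1 _, hG.b2 _⟩)
  have h2 : NL β₁ β₂ L (gp G1 G2 a A) ≤
      ∫ z, NL β₁ β₂ L (G1 (a + A.ap z), G2 (a + A.ap z)) ∂g2 := h1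
  have i1 := ONE_int2 (ONE_NLB hNlp hb1 hb2 hbs hL hG) a A
  have i2 := ONE_int2 (ONE_thB hThp hb1 hb2 hbs hL hG) a A
  have i3 : Integrable (fun z => 1 + NL β₁ β₂ L (G1 (a + A.ap z), G2 (a + A.ap z))) g2 :=
    (integrable_const 1).add i1
  have h3 : ∫ z, (1 + NL β₁ β₂ L (G1 (a + A.ap z), G2 (a + A.ap z))) ∂g2 =
      1 + ∫ z, NL β₁ β₂ L (G1 (a + A.ap z), G2 (a + A.ap z)) ∂g2 := by
    rw [integral_add (integrable_const 1) i1]
    simp
  have h4 := integral_mono i3 i2 (fun z => t2 L _ hL)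
  have h5 : ph β₁ β₂ G1 G2 L a A =
      ∫ z, th β₁ β₂ L (G1 (a + A.ap z), G2 (a + A.ap z)) ∂g2 := rfl
  rw [h5]
  linarith

lemma ONE_exp (hNlp : SNlp) (hJen : SJen) {β₁ β₂ L : ℝ} (hb1 : 0 < β₁)
    (hb2 : 0 < β₂) (hbs : β₁ + β₂ = 1 / 2) (hL : 1 ≤ L) {G G1 G2 : ℝ × ℝ → ℝ} {T : ℝ}
    (hG : Sm G G1 G2 T) (a : ℝ × ℝ) (A : Mat)
    (hmu : mu (fun x => 1 + nm (G1 x, G2 x)) a A ≤ Real.exp L) :
    1 + NL β₁ β₂ L (gp G1 G2 a A) ≤ Real.exp (2 * L + 1) := by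
  have hz : ∀ x, NL 0 0 1 x = nm x := fun x => by simp [NL]
  have h1 := hJen 0 0 1 g2 (fun z => (G1 (a + A.ap z), G2 (a + A.ap z))) T
    ((ONE_gm hG).comp (ONE_ap_meas a A)) (fun z => ⟨hG.b1 _, hG.b2 _⟩)
  simp only [hz] at h1
  have h2 : nm (gp G1 G2 a A) ≤
      ∫ z, nm (G1 (a + A.ap z), G2 (a + A.ap z)) ∂g2 := h1
  have i1 := ONE_int2 (ONE_nmB hG) a A
  have h3 : ∫ z, (1 + nm (G1 (a + A.ap z), G2 (a + A.ap z))) ∂g2 =
      1 + ∫ z, nm (G1 (a + A.ap z), G2 (a + A.ap z)) ∂g2 := by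
    rw [integral_add (integrable_const 1) i1]
    simp
  have h4 : mu (fun x => 1 + nm (G1 x, G2 x)) a A =
      ∫ z, (1 + nm (G1 (a + A.ap z), G2 (a + A.ap z))) ∂g2 := rfl
  rw [h4, h3] at hmu
  have h5 := ((hNlp β₁ β₂ hb1 hb2 hbs).1 L (gp G1 G2 a A) hL).2
  have h6 : 1 ≤ √L := Real.one_le_sqrt.mpr hL
  have h7 : √L ≤ L := by
    rw [Real.sqrt_le_left (by linarith)]
    nlinarith
  have h8 : L ≤ Real.exp (L + 1) := by
    have := Real.add_one_le_exp (L + 1)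
    linarith
  have h9 : Real.exp (2 * L + 1) = Real.exp (L + 1) * Real.exp L := by
    rw [← Real.exp_add]
    ring_nf
  have h10 : √L * (1 + nm (gp G1 G2 a A)) ≤ Real.exp (L + 1) * Real.exp L := by
    apply mul_le_mul (by linarith) (by linarith) _ (Real.exp_pos _).le
    have := ONE_nm_nonneg (gp G1 G2 a A)
    linarith
  rw [h9]
  linarith

theorem sOne (hDet : SDet) (hCtr : SCtr) (hStp : SStp) (hCst : SCst) (hDri : SDri)
    (hGib : SGib) (hRef : SRef) (hMmu : SMmu) (_hMst : SMst) (hMeu : SMeu) (hMzk : SMzk)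
    (hNlp : SNlp) (hJen : SJen) (hRho : SRho) (hThp : SThp) (_hCnt : SCnt) : SOne := by
  intro β₁ β₂ Ca Cb Ce K D Λ Cv hC W G G1 G2 M T hW hG k L a A hL hdet htau hmu hch
  have hL1 : (1 : ℝ) ≤ L := by linarith
  have hCv : 0 ≤ Cv := zero_le_one.trans hC.cv
  obtain ⟨e, heD, htau', hcase1, hcase2⟩ := hCtr β₁ β₂ hC.p1 hC.p2 hC.ps D hC.net L A
    (gp G1 G2 a A) hL hdet htau
  have he : e.1 ^ 2 + e.2 ^ 2 = 1 := hC.net.1 e heD
  have hdet' : 0 < (A.con e).det := by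
    rw [(hDet A e he).1]
    positivity
  have hline : Measurable (fun g : ℝ => a + g • A.stp e) := by fun_prop
  have hthB := ONE_thB hThp hC.p1 hC.p2 hC.ps hL1 hG
  have hG1B : Bd G1 T := ⟨hG.c1.measurable, hG.b1⟩
  have hG2B : Bd G2 T := ⟨hG.c2.measurable, hG.b2⟩
  have mG1 := (hMmu G1 T hG1B (A.con e)).1
  have mG2 := (hMmu G2 T hG2B (A.con e)).1
  have mth := (hMmu _ _ hthB (A.con e)).1
  obtain ⟨hum, Cu, hCu⟩ := hMeu W M hW A e Λ Cv hCv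
  obtain ⟨hzm, Cz, hCz⟩ := hMzk W M hW D hC.hD Λ Cv hCv k (A.con e)
  have hu : ONE_B (fun g => eU Λ Cv W a A e g) := by
    apply ONE_B.of_le (hum.comp (measurable_const.prodMk measurable_id)) Cu
    · intro g
      exact zero_le_one.trans (hCu a g).1
    · intro g
      exact (hCu a g).2
  have hz : ONE_B (fun g => Zk D Λ Cv W k (a + g • A.stp e) (A.con e)) := by
    apply ONE_B.of_le (hzm.comp hline) Cz
    · intro g
      exact zero_le_one.trans (hCz (a + g • A.stp e)).1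
    · intro g
      exact (hCz (a + g • A.stp e)).2
  have hZ : (∫ g, eU Λ Cv W a A e g ∂g1) * (∫ g, eU Λ Cv W a A e g *
      Zk D Λ Cv W k (a + g • A.stp e) (A.con e) ∂g1) ≤ Zk D Λ Cv W (k + 1) a A := by
    have h1 := Finset.single_le_sum (f := fun e : ℝ × ℝ => (∫ g, eU Λ Cv W a A e g ∂g1) *
      (∫ g, eU Λ Cv W a A e g * Zk D Λ Cv W k (a + g • A.stp e) (A.con e) ∂g1))
      (s := D) (fun e' _ => ?_) heD
    · simpa [Zk] using h1
    · obtain ⟨_, C1, hC1⟩ := hMeu W M hW A e' Λ Cv hCv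
      obtain ⟨_, C2, hC2⟩ := hMzk W M hW D hC.hD Λ Cv hCv k (A.con e')
      apply mul_nonneg
      · apply integral_nonneg
        intro g
        have := (hC1 a g).1
        simp only [Pi.zero_apply]
        linarith
      · apply integral_nonneg
        intro g
        have h2 := (hC1 a g).1
        have h3 := (hC2 (a + g • A.stp e')).1
        simp only [Pi.zero_apply]
        positivity
  have hlb := fun a A => ONE_lb hNlp hJen hThp hC.p1 hC.p2 hC.ps hL1 hG a A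
  have hstp := hStp W G G1 G2 M T hW hG a A e hdet he
  refine hstp.trans ?_
  have hcore := ONE_core hCst hDri hGib hNlp hJen hRho β₁ β₂ L hC.p1 hC.p2 hC.ps hL A (A.con e)
    hdet hdet' htau htau' (gp G1 G2 a A) (fun g => gp G1 G2 (a + g • A.stp e) (A.con e))
    (max T (1 + √(max L (4 * Real.log (1 + 2 * T))) * (2 * T)))
    ((mG1.1.comp hline).prodMk (mG2.1.comp hline))
    (fun g => ⟨(mG1.2 _).trans (le_max_left _ _), (mG2.2 _).trans (le_max_left _ _)⟩)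
    (hRef G1 T hG1B a A e he).symm (hRef G2 T hG2B a A e he).symm
    (ph β₁ β₂ G1 G2 L a A) (fun g => ph β₁ β₂ G1 G2 L (a + g • A.stp e) (A.con e))
    (mth.1.comp hline)
    (fun g => ((le_abs_self _).trans (mth.2 _)).trans (le_max_right _ _))
    (hlb a A) (fun g => hlb _ _) (hRef _ _ hthB a A e he).symm
    (ONE_exp hNlp hJen hC.p1 hC.p2 hC.ps hL1 hG a A hmu) hcase1 hcase2 Ca Cb Ce K
    (3 * K + 6 * k) hC.cb hC.ce hC.k _ _ hu hz (fun g => (hCu a g).1)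
    (fun g => (hCz (a + g • A.stp e)).1) _ hZ
    (fun g => |Rr W G G1 G2 (a + g • A.stp e) (A.con e)|)
    (fun g => √(TA A (gp G1 G2 (a + g • A.stp e) (A.con e) - gp G1 G2 a A)) *
      (|xi0 W a A e g| + |xi1 W a A e g| + |xi2 W a A e g|))
    (fun g => abs_nonneg _) (fun g => by positivity)
    (fun g => hch e heD htau' g) ?_
  · refine hcore.trans (le_of_eq ?_)
    unfold Bnd
    push_cast
    ring
  · intro g
    obtain ⟨n1, n2, n3, n4, n5, n6, n7⟩ := hNlp β₁ β₂ hC.p1 hC.p2 hC.ps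
    obtain ⟨q, hq⟩ : ∃ q, q = gp G1 G2 (a + g • A.stp e) (A.con e) := ⟨_, rfl⟩
    obtain ⟨p, hp⟩ : ∃ p, p = gp G1 G2 a A := ⟨_, rfl⟩
    have l1 := hlb a A
    have l2 := hlb (a + g • A.stp e) (A.con e)
    obtain ⟨h, hh⟩ : ∃ h, h = ph β₁ β₂ G1 G2 L a A +
      ph β₁ β₂ G1 G2 L (a + g • A.stp e) (A.con e) := ⟨_, rfl⟩
    rw [← hq, ← hp, ← hh]
    rw [← hq] at l2
    rw [← hp] at l1
    have hh0 : 0 < h := by
      have := ONE_NL_nonneg β₁ β₂ L p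
      have := ONE_NL_nonneg β₁ β₂ L q
      linarith
    have ht : √(TA A (q - p)) ≤ 3 * h := by
      have e1 := n5 L q (-p)
      rw [ONE_NL_neg, ← sub_eq_add_neg] at e1
      have e2 : TA A (q - p) ≤ 6 * NL β₁ β₂ L (q - p) ^ 2 :=
        (n6 L A _ hL1 hdet).trans (mul_le_mul_of_nonneg_right htau (sq_nonneg _))
      have e3 := ONE_NL_nonneg β₁ β₂ L (q - p)
      have e4 : √(TA A (q - p)) ≤ 3 * NL β₁ β₂ L (q - p) := by
        apply Real.sqrt_le_iff.mpr ⟨by positivity, ?_⟩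
        nlinarith
      linarith
    have hsq : √(TA A (q - p)) ^ 2 = TA A (q - p) := Real.sq_sqrt (ONE_TA_nonneg A hdet _)
    have a0 := hC.amg _ h (xi0 W a A e g) (Real.sqrt_nonneg (TA A (q - p))) hh0 ht
    have a1 := hC.amg _ h (xi1 W a A e g) (Real.sqrt_nonneg (TA A (q - p))) hh0 ht
    have a2 := hC.amg _ h (xi2 W a A e g) (Real.sqrt_nonneg (TA A (q - p))) hh0 ht
    rw [hsq] at a0 a1 a2
    have hlogU : Real.log (eU Λ Cv W a A e g) = Real.log (ZZ Λ Cv (xi0 W a A e g)) +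
        Real.log (ZZ Λ Cv (xi1 W a A e g)) + Real.log (ZZ Λ Cv (xi2 W a A e g)) := by
      unfold eU
      rw [Real.log_mul (mul_pos (ONE_ZZ_pos _ _ _) (ONE_ZZ_pos _ _ _)).ne'
        (ONE_ZZ_pos _ _ _).ne', Real.log_mul (ONE_ZZ_pos _ _ _).ne' (ONE_ZZ_pos _ _ _).ne']
    rw [hlogU]
    have e5 : √K * (TA A (q - p) / h) = 3 * (√K * TA A (q - p) / (3 * h)) := by
      field_simp
    rw [e5]
    nlinarith

end Pool.UMD
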